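import Pool.Agent.Q202.RS.Int

/-!
# MP_3f33d0: all operators commuting with right translations can be regular

We work with discrete groups `G`; then `L⁰(G)` is the space of all functions `G → ℂ`. A Banach
function space on `G` (`BFS G`) is a complex Banach space `E` together with an injective linear map
`val` into the functions on `G`, such that `|g| ≤ |f|`, `f ∈ E` imply `g ∈ E`, `‖g‖ ≤ ‖f‖`.

The result: there are an amenable (discrete) group `G` - the group of the integers - and a Banach
function space on `G`, invariant under left and right translations, which carries a bounded operator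
that is not regular, while every bounded operator commuting with all right translations is regular.
This is the negated form of Q1. The space is the weighted space `{f : Σ (1+|n|)² |f n|² < ∞}`, a
convolution algebra.
-/

set_option autoImplicit false

namespace Pool.Agent.Results.MP_3f33d0_an.WeightedHilbertOnIntegers

/-- The discrete group `G` is amenable (Følner's condition). -/
def Amenable (G : Type) [Group G] : Prop :=
  ∀ (K : Finset G) (ε : ℝ), 0 < ε → ∃ F : Finset G, F.Nonempty ∧
    ∀ g ∈ K, (({x | x ∈ F ∧ g * x ∉ F} : Set G).ncard : ℝ) ≤ ε * F.card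

/-- A Banach function space on the discrete group `G` : a complex Banach space `E`, whose elements
`f` are identified with functions `val f` on `G`, with the ideal property and monotone norm. -/
structure BFS (G : Type) where
  E : Type
  [nrm : NormedAddCommGroup E]
  [spc : NormedSpace ℂ E]
  complete : CompleteSpace E
  val : E →ₗ[ℂ] (G → ℂ)
  injective : Function.Injective val
  ideal : ∀ (f : E) (g : G → ℂ), (∀ t, ‖g t‖ ≤ ‖val f t‖) → ∃ k : E, val k = g ∧ ‖k‖ ≤ ‖f‖

attribute [instance] BFS.nrm BFS.spc

variable {G : Type}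

/-- The bounded operators on the Banach function space `X`. -/
abbrev BFS.Op (X : BFS G) : Type := X.E →L[ℂ] X.E

/-- `f ≥ 0` pointwise -/
def BFS.NonNeg (X : BFS G) (f : X.E) : Prop := ∀ t, 0 ≤ (X.val f t).re ∧ (X.val f t).im = 0

/-- The operator `T` is positive. -/
def BFS.Positive (X : BFS G) (T : X.Op) : Prop := ∀ f, X.NonNeg f → X.NonNeg (T f)

/-- The operator `T` is regular: a complex linear combination of positive operators. -/
def BFS.Regular (X : BFS G) (T : X.Op) : Prop :=
  ∃ (n : ℕ) (c : Fin n → ℂ) (S : Fin n → X.Op), (∀ i, X.Positive (S i)) ∧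
    ∀ f, T f = ∑ i, c i • S i f

/-- `X` is invariant under the left translations `λ_t f (s) = f (t⁻¹ s)` and the right translations
`ρ_t f (s) = f (s t)`. -/
def BFS.Invariant [Group G] (X : BFS G) : Prop :=
  ∀ (t : G) (f : X.E), (∃ h : X.E, ∀ s, X.val h s = X.val f (t⁻¹ * s)) ∧
    ∃ h : X.E, ∀ s, X.val h s = X.val f (s * t)

/-- `T` commutes with all right translations: whenever `h = ρ_t f`, then `T h = ρ_t (T f)`. -/
def BFS.CommutesRight [Group G] (X : BFS G) (T : X.Op) : Prop :=
  ∀ (t : G) (f h : X.E), (∀ s, X.val h s = X.val f (s * t)) →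
    ∀ s, X.val (T h) s = X.val (T f) (s * t)

/-- The negated form of Q1. -/
theorem result : ∃ (G : Type) (_ : Group G) (X : BFS G), Amenable G ∧ X.Invariant ∧
    (∃ T : X.Op, ¬ X.Regular T) ∧ ∀ T : X.Op, X.CommutesRight T → X.Regular T := by
  refine ⟨Pool.Agent.Q202.RS.ZZ, inferInstance,
    { E := Pool.Agent.Q202.RS.L2 Pool.Agent.Q202.RS.ZZ
      complete := inferInstance
      val := Pool.Agent.Q202.RS.vl
      injective := Pool.Agent.Q202.RS.vl_inj
      ideal := Pool.Agent.Q202.RS.vl_solid }, Pool.Agent.Q202.RS.folner, ?_, ?_, ?_⟩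
  · intro t f
    refine ⟨?_, Pool.Agent.Q202.RS.vl_right t f⟩
    obtain ⟨h, hh⟩ := Pool.Agent.Q202.RS.vl_right t⁻¹ f
    refine ⟨h, fun s => ?_⟩
    show Pool.Agent.Q202.RS.vl h s = Pool.Agent.Q202.RS.vl f (t⁻¹ * s)
    rw [hh s, mul_comm]
  · obtain ⟨T, hT⟩ := Pool.Agent.Q202.RS.exists_not_reg
    refine ⟨T, ?_⟩
    rintro ⟨n, c, S, hS, hc⟩
    refine hT ⟨n, c, S, fun i f hf t => ?_, ?_⟩
    · exact (Pool.Agent.Q202.RS.vl_pos _ t).1 (hS i f (fun s => (Pool.Agent.Q202.RS.vl_pos f s).2 (hf s)) t)
    · ext1 f
      rw [sum_apply]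
      exact hc f
  · intro T hT
    obtain ⟨n, c, S, hS, hc⟩ := Pool.Agent.Q202.RS.reg_of_commute T hT
    refine ⟨n, c, S, fun i f hf t => ?_, fun f => ?_⟩
    · exact (Pool.Agent.Q202.RS.vl_pos _ t).2 (hS i f (fun s => (Pool.Agent.Q202.RS.vl_pos f s).1 (hf s)) t)
    · rw [hc, sum_apply]
      rfl

end Pool.Agent.Results.MP_3f33d0_an.WeightedHilbertOnIntegers
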